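import Mathlib

set_option autoImplicit false

/-!
Graph pebbling: basic definitions and calculus (definitions and lemmas as in the file
EventualEquality of helper73 on the same problem).
-/

namespace Pool.Agent.Helper18.Peb

open Finset

variable {V : Type}

/-- One pebbling step from `C` to `C'`: along an edge `u v` with `C u ≥ 2`, two pebbles are removed
from `u` and one pebble is added to `v`. -/
def Step (G : SimpleGraph V) (C C' : V → ℕ) : Prop :=
  ∃ u v, G.Adj u v ∧ 2 ≤ C u ∧ C' u = C u - 2 ∧ C' v = C v + 1 ∧
    ∀ w, w ≠ u → w ≠ v → C' w = C w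

/-- `C` is `D`-solvable: some finite sequence of pebbling steps turns `C` into some `C' ≥ D`. -/
def Solvable (G : SimpleGraph V) (C D : V → ℕ) : Prop :=
  ∃ C', Relation.ReflTransGen (Step G) C C' ∧ ∀ v, D v ≤ C' v

/-- The size (total number of pebbles) of a configuration. -/
def size [Fintype V] (C : V → ℕ) : ℕ := ∑ v, C v

/-- `π(G, 𝒟)`: the least `t` such that every configuration of size `t` is `D`-solvable for each
`D ∈ 𝒟`. -/
noncomputable def pebblingNumber [Fintype V] (G : SimpleGraph V) (𝒟 : Set (V → ℕ)) : ℕ :=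
  sInf {t | ∀ C : V → ℕ, size C = t → ∀ D ∈ 𝒟, Solvable G C D}

/-- The set of all configurations of size `k`. -/
def sizeTargets (V : Type) [Fintype V] (k : ℕ) : Set (V → ℕ) := {D | size D = k}

/-- The set of all configurations with `k` pebbles on one vertex and none elsewhere. -/
def foldTargets (V : Type) (k : ℕ) : Set (V → ℕ) := {D | ∃ v, D v = k ∧ ∀ w, w ≠ v → D w = 0}

section basic

variable [DecidableEq V] {G : SimpleGraph V}

lemma step_iff {C C' : V → ℕ} : Step G C C' ↔
    ∃ u v, G.Adj u v ∧ C' + Pi.single u 2 = C + Pi.single v 1 := by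
  constructor
  · rintro ⟨u, v, huv, h2, h3, h4, h5⟩
    refine ⟨u, v, huv, ?_⟩
    funext w
    have hne : u ≠ v := huv.ne
    by_cases hu : w = u
    · subst hu
      simp [hne, h3, h2]
    · by_cases hv : w = v
      · subst hv
        simp [hne.symm, h4]
      · simp [hu, hv, h5 w hu hv]
  · rintro ⟨u, v, huv, h⟩
    have hne : u ≠ v := huv.ne
    have h1 := congrFun h u
    have h2 := congrFun h v
    simp only [Pi.add_apply, Pi.single_eq_same, Pi.single_eq_of_ne hne, add_zero] at h1
    simp only [Pi.add_apply, Pi.single_eq_same, Pi.single_eq_of_ne hne.symm, add_zero] at h2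
    refine ⟨u, v, huv, by omega, by omega, h2, ?_⟩
    intro w hu hv
    have h3 := congrFun h w
    simpa [hu, hv] using h3

lemma Step.add {C C' : V → ℕ} (h : Step G C C') (E : V → ℕ) : Step G (C + E) (C' + E) := by
  rw [step_iff] at h ⊢
  obtain ⟨u, v, huv, h⟩ := h
  refine ⟨u, v, huv, ?_⟩
  rw [add_right_comm, h, add_right_comm]

lemma reach_add {C C' : V → ℕ} (h : Relation.ReflTransGen (Step G) C C') (E : V → ℕ) :
    Relation.ReflTransGen (Step G) (C + E) (C' + E) := by
  induction h with
  | refl => exact Relation.ReflTransGen.refl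
  | tail _ h2 ih => exact ih.tail (h2.add E)

lemma Solvable.refl' {C D : V → ℕ} (h : D ≤ C) : Solvable G C D :=
  ⟨C, Relation.ReflTransGen.refl, h⟩

lemma Solvable.add {A B D E : V → ℕ} (h1 : Solvable G A D) (h2 : Solvable G B E) :
    Solvable G (A + B) (D + E) := by
  obtain ⟨A', hA, hA'⟩ := h1
  obtain ⟨B', hB, hB'⟩ := h2
  refine ⟨A' + B', (reach_add hA B).trans ?_, fun v => add_le_add (hA' v) (hB' v)⟩
  have := reach_add hB A'
  rwa [add_comm B, add_comm B'] at this

lemma Solvable.mono {A B D E : V → ℕ} (h : Solvable G A D) (h1 : A ≤ B) (h2 : E ≤ D) :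
    Solvable G B E := by
  have h3 : Solvable G (A + (B - A)) (D + 0) := h.add (Solvable.refl' (fun _ => Nat.zero_le _))
  rw [add_tsub_cancel_of_le h1, add_zero] at h3
  obtain ⟨C', h4, h5⟩ := h3
  exact ⟨C', h4, fun v => (h2 v).trans (h5 v)⟩

lemma Solvable.trans {A D E : V → ℕ} (h1 : Solvable G A D) (h2 : Solvable G D E) :
    Solvable G A E := by
  obtain ⟨A', hA, hA'⟩ := h1
  obtain ⟨C', h4, h5⟩ := h2.mono (B := A') (fun v => hA' v) (le_refl E)
  exact ⟨C', hA.trans h4, h5⟩

lemma solvable_sum {ι : Type} (s : Finset ι) (A D : ι → V → ℕ)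
    (h : ∀ i ∈ s, Solvable G (A i) (D i)) : Solvable G (∑ i ∈ s, A i) (∑ i ∈ s, D i) := by
  classical
  induction s using Finset.induction_on with
  | empty => simpa using Solvable.refl' (G := G) (le_refl (0 : V → ℕ))
  | insert a s ha ih =>
    rw [Finset.sum_insert ha, Finset.sum_insert ha]
    exact (h a (Finset.mem_insert_self a s)).add (ih fun i hi => h i (Finset.mem_insert_of_mem hi))

/-- two pebbles on `u` yield one on a neighbour -/
lemma solvable_adj {u v : V} (h : G.Adj u v) : Solvable G (Pi.single u 2) (Pi.single v 1) := by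
  refine ⟨Pi.single v 1, Relation.ReflTransGen.single ?_, fun _ => le_refl _⟩
  rw [step_iff]
  exact ⟨u, v, h, by rw [add_comm]⟩

lemma solvable_smul (m : ℕ) {A D : V → ℕ} (h : Solvable G A D) : Solvable G (m • A) (m • D) := by
  have := solvable_sum (G := G) (Finset.range m) (fun _ => A) (fun _ => D) (fun _ _ => h)
  simpa using this

lemma solvable_walk {u v : V} (p : G.Walk u v) :
    Solvable G (Pi.single u (2 ^ p.length)) (Pi.single v 1) := by
  induction p with
  | nil => exact Solvable.refl' (by simp)
  | @cons a b c hab q ih =>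
    refine Solvable.trans (D := Pi.single b (2 ^ q.length)) ?_ ih
    have := solvable_smul (2 ^ q.length) (solvable_adj hab)
    refine this.mono ?_ ?_
    · intro w
      by_cases hw : w = a
      · subst hw; simp [pow_succ]
      · simp [hw]
    · intro w
      by_cases hw : w = b
      · subst hw; simp
      · simp [hw]

lemma solvable_unit (hG : G.Connected) {d : ℕ} (hd : ∀ u v, G.dist u v ≤ d) (u v : V) :
    Solvable G (Pi.single u (2 ^ d)) (Pi.single v 1) := by
  obtain ⟨p, hp⟩ := hG.exists_walk_length_eq_dist u v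
  refine (solvable_walk p).mono ?_ (le_refl _)
  intro w
  by_cases hw : w = u
  · subst hw
    simp only [Pi.single_eq_same]
    rw [hp]
    exact Nat.pow_le_pow_right (by norm_num) (hd _ _)
  · simp [hw]

end basic

section bulk

variable [Fintype V] [DecidableEq V] {G : SimpleGraph V}

lemma size_add (C D : V → ℕ) : size (C + D) = size C + size D := by
  simp [size, Finset.sum_add_distrib]

lemma size_single (x : V) (m : ℕ) : size (Pi.single x m : V → ℕ) = m := by
  simp [size]

lemma size_sum {ι : Type} (s : Finset ι) (A : ι → V → ℕ) :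
    size (∑ i ∈ s, A i) = ∑ i ∈ s, size (A i) := by
  simp only [size, Finset.sum_apply]
  rw [Finset.sum_comm]

lemma size_mono {C D : V → ℕ} (h : C ≤ D) : size C ≤ size D :=
  Finset.sum_le_sum fun x _ => h x

/-- the number of full units of `N` pebbles -/
def units (N : ℕ) (C : V → ℕ) : ℕ := ∑ x, C x / N

lemma units_add_single (N : ℕ) (hN : 0 < N) (C : V → ℕ) (x : V) :
    units N (C + Pi.single x N) = units N C + 1 := by
  have h1 : ∀ y, (C + Pi.single x N : V → ℕ) y / N = C y / N + (Pi.single x 1 : V → ℕ) y := by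
    intro y
    by_cases h : y = x
    · subst h
      simp [Nat.add_div_right _ hN]
    · simp [h]
  simp only [units, h1, Finset.sum_add_distrib]
  simp

lemma size_le_units (N : ℕ) (hN : 0 < N) (C : V → ℕ) :
    size C ≤ N * units N C + Fintype.card V * (N - 1) := by
  have h1 : ∀ x, C x ≤ N * (C x / N) + (N - 1) := by
    intro x
    have h2 := Nat.div_add_mod (C x) N
    have h3 := Nat.mod_lt (C x) hN
    omega
  calc size C ≤ ∑ x, (N * (C x / N) + (N - 1)) := Finset.sum_le_sum fun x _ => h1 x
    _ = N * units N C + Fintype.card V * (N - 1) := by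
      rw [Finset.sum_add_distrib, units, Finset.mul_sum]
      simp

/-- units of `2 ^ d` pebbles are universal -/
lemma solvable_bulk (hG : G.Connected) {d : ℕ} (hd : ∀ u v, G.dist u v ≤ d) (n : ℕ) :
    ∀ C D : V → ℕ, size D = n → n ≤ units (2 ^ d) C → Solvable G C D := by
  induction n with
  | zero =>
    intro C D hD _
    have : D = 0 := by
      funext x
      have := (Finset.sum_eq_zero_iff_of_nonneg (fun x _ => Nat.zero_le (D x))).mp hD x
        (Finset.mem_univ x)
      simpa using this
    subst this
    exact Solvable.refl' (fun _ => Nat.zero_le _)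
  | succ n ih =>
    intro C D hD hC
    have h1 : ∃ v, D v ≠ 0 := by
      by_contra hc
      push Not at hc
      simp [size, hc] at hD
    obtain ⟨v, hv⟩ := h1
    have h2 : ∃ x, C x / 2 ^ d ≠ 0 := by
      by_contra hc
      push Not at hc
      simp [units, hc] at hC
    obtain ⟨x, hx⟩ := h2
    have hx' : 2 ^ d ≤ C x := by
      by_contra hc
      exact hx (Nat.div_eq_of_lt (by omega))
    have h3 : C - Pi.single x (2 ^ d) + Pi.single x (2 ^ d) = C := by
      apply tsub_add_cancel_of_le
      intro y
      by_cases h : y = x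
      · subst h; simpa using hx'
      · simp [h]
    have h4 : D - Pi.single v 1 + Pi.single v 1 = D := by
      apply tsub_add_cancel_of_le
      intro y
      by_cases h : y = v
      · subst h; simp; omega
      · simp [h]
    rw [← h3, ← h4]
    refine (ih _ _ ?_ ?_).add (solvable_unit hG hd x v)
    · have := congrArg size h4
      rw [size_add, size_single] at this
      omega
    · have := units_add_single (2 ^ d) (by positivity) (C - Pi.single x (2 ^ d)) x
      rw [h3] at this
      omega

end bulk


section rch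

variable [DecidableEq V] {G : SimpleGraph V}

/-- `Rch G m x y`: `2 ^ m` pebbles on `x` yield one pebble on `y`. -/
def Rch (G : SimpleGraph V) (m : ℕ) (x y : V) : Prop :=
  Solvable G (Pi.single x (2 ^ m)) (Pi.single y 1)

lemma single_le_single {x : V} {a b : ℕ} (h : a ≤ b) :
    (Pi.single x a : V → ℕ) ≤ Pi.single x b := by
  intro w
  by_cases hw : w = x
  · subst hw; simpa using h
  · simp [hw]

lemma smul_single (k : ℕ) (x : V) (a : ℕ) :
    k • (Pi.single x a : V → ℕ) = Pi.single x (k * a) := by
  funext w
  by_cases hw : w = x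
  · subst hw; simp
  · simp [hw]

lemma single_add_single (x : V) (a b : ℕ) :
    (Pi.single x a : V → ℕ) + Pi.single x b = Pi.single x (a + b) := by
  funext w
  by_cases hw : w = x
  · subst hw; simp
  · simp [hw]

lemma Rch.smul {m : ℕ} {x y : V} (h : Rch G m x y) (k : ℕ) :
    Solvable G (Pi.single x (k * 2 ^ m)) (Pi.single y k) := by
  have h1 := solvable_smul k h
  rwa [smul_single, smul_single, mul_one] at h1

lemma Rch.refl (m : ℕ) (x : V) : Rch G m x x :=
  Solvable.refl' (single_le_single Nat.one_le_two_pow)

lemma Rch.trans {m n : ℕ} {x y z : V} (h1 : Rch G m x y) (h2 : Rch G n y z) :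
    Rch G (m + n) x z := by
  have h3 := h1.smul (2 ^ n)
  rw [← pow_add, add_comm n m] at h3
  exact Solvable.trans h3 h2

lemma Rch.mono {m n : ℕ} {x y : V} (h : Rch G m x y) (hmn : m ≤ n) : Rch G n x y :=
  Solvable.mono h (single_le_single (Nat.pow_le_pow_right (by norm_num) hmn)) (le_refl _)

/-- `a` pebbles on `x` yield `k` on `y` if `k * 2 ^ m ≤ a` -/
lemma Rch.solv {m : ℕ} {x y : V} (h : Rch G m x y) {k a : ℕ} (hk : k * 2 ^ m ≤ a) :
    Solvable G (Pi.single x a) (Pi.single y k) :=
  (h.smul k).mono (single_le_single hk) (le_refl _)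

lemma rch_walk {x y : V} (p : G.Walk x y) : Rch G p.length x y := solvable_walk p

lemma rch_adj {x y : V} (h : G.Adj x y) : Rch G 1 x y := by
  have := solvable_adj h
  simpa [Rch] using this

end rch

end Pool.Agent.Helper18.Peb
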