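import Mathlib
import Pool.Agent.Helper18.Peb.Basic

set_option autoImplicit false

/-!
The abstract interface of the upper bound.
-/

namespace Pool.Agent.Helper18.Peb

open Finset

/-- One side (rows or columns) of the construction, `z σ` being the centre of the star `σ`:
`2 ^ 34` pebbles on `z σ` give one pebble on the gate of its own line, `2 ^ 35` pebbles on `z σ` give
one pebble on any gate of the side, and gates and hub are at distance `104`. -/
structure Side {V S : Type} [DecidableEq V] (G : SimpleGraph V) (z : S → V) where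
  line : S → Fin 1024
  gate : Fin 1024 → V
  hub : V
  own : ∀ σ, Rch G 34 (z σ) (gate (line σ))
  any : ∀ σ i, Rch G 35 (z σ) (gate i)
  up : ∀ i, Rch G 104 (gate i) hub
  down : ∀ i, Rch G 104 hub (gate i)

/-- the facts on the graph used in the upper bound -/
structure Setup {V S : Type} [Fintype V] [DecidableEq V] [Fintype S] [DecidableEq S]
    (G : SimpleGraph V) (z : S → V) where
  R : Side G z
  C : Side G z
  reg : V → Option S
  hR : ∀ i, #{σ | R.line σ = i} = 2 ^ 104 + 2 ^ 92
  hC : ∀ i, #{σ | C.line σ = i} = 2 ^ 104 + 2 ^ 92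
  hstar : ∀ x σ, reg x = some σ → Rch G 60 x (z σ)
  hgate : ∀ x σ i, reg x = some σ → Rch G 95 (R.gate i) x ∧ Rch G 95 (C.gate i) x
  hnstar : ∀ σ, #{x | reg x = some σ} ≤ 69693
  hncore : #{x | reg x = none} ≤ 213003
  hcore : ∀ x w, reg x = none → reg w = none → Rch G 173 x w
  hcls : ∀ x, reg x = none →
      (∃ i, Rch G 99 x (R.gate i) ∧ Rch G 99 (R.gate i) x) ∨
      (∃ i, Rch G 99 x (C.gate i) ∧ Rch G 99 (C.gate i) x) ∨
      (Rch G 5 x R.hub ∧ Rch G 5 R.hub x) ∨ (Rch G 5 x C.hub ∧ Rch G 5 C.hub x)

/-- the content of the core -/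
def coreSum {V S : Type} [Fintype V] [DecidableEq S] (reg : V → Option S) (P : V → ℕ) : ℕ :=
  ∑ x with reg x = none, P x

/-- the number of units (of `2 ^ 34` pebbles at the centre) of the star `σ` -/
def tau {V S : Type} [Fintype V] [DecidableEq S] (reg : V → Option S) (P : V → ℕ) (σ : S) : ℕ :=
  (∑ x with reg x = some σ, P x / 2 ^ 60) / 2 ^ 34

end Pool.Agent.Helper18.Peb
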