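import Mathlib
import Pool.Agent.Helper18.Peb.Basic

set_option autoImplicit false

/-!
Subdivisions of a directed multigraph with vertex set `K` and edge set `E`: the edge `e` is replaced
by a path with `len e` edges from `src e` to `tgt e`.
-/

namespace Pool.Agent.Helper18.Peb

/-- a directed multigraph with vertices `K`, edges `E` and edge lengths -/
structure Skel (K E : Type) where
  src : E → K
  tgt : E → K
  len : E → ℕ

namespace Skel

variable {K E : Type} (X : Skel K E)

/-- the vertices of the subdivision: the vertices of the skeleton and the `len e - 1` interior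
vertices of the path of the edge `e` -/
abbrev Vx : Type := K ⊕ (Σ e : E, Fin (X.len e - 1))

/-- the `k`-th vertex of the path of the edge `e`, `0 ≤ k ≤ len e` -/
def pt (e : E) (k : ℕ) : X.Vx :=
  if k = 0 then Sum.inl (X.src e)
  else if h : k - 1 < X.len e - 1 then Sum.inr ⟨e, ⟨k - 1, h⟩⟩ else Sum.inl (X.tgt e)

/-- the subdivision -/
def G : SimpleGraph X.Vx :=
  SimpleGraph.fromRel fun x y => ∃ e k, k < X.len e ∧ x = X.pt e k ∧ y = X.pt e (k + 1)

/-- the configuration on the subdivision with no pebbles on interior vertices of paths -/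
def ext (C : K → ℕ) : X.Vx → ℕ := Sum.elim C (fun _ => 0)

lemma pt_zero (e : E) : X.pt e 0 = Sum.inl (X.src e) := by simp [pt]

lemma pt_len (e : E) (h : 1 ≤ X.len e) : X.pt e (X.len e) = Sum.inl (X.tgt e) := by
  have h1 : X.len e ≠ 0 := by omega
  simp [pt, h1]

lemma pt_mid (e : E) (k : ℕ) (h1 : 1 ≤ k) (h2 : k < X.len e) :
    X.pt e k = Sum.inr ⟨e, ⟨k - 1, by omega⟩⟩ := by
  have h3 : k ≠ 0 := by omega
  have h4 : k - 1 < X.len e - 1 := by omega
  simp [pt, h3, h4]

lemma inr_eq_pt (e : E) (k : Fin (X.len e - 1)) : (Sum.inr ⟨e, k⟩ : X.Vx) = X.pt e (k.1 + 1) := by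
  rw [pt_mid X e (k.1 + 1) (by omega) (by have := k.2; omega)]
  rfl

lemma pt_ne_succ (h2 : ∀ e, 2 ≤ X.len e) (e : E) (k : ℕ) (hk : k < X.len e) :
    X.pt e k ≠ X.pt e (k + 1) := by
  have h3 := h2 e
  rcases Nat.eq_zero_or_pos k with h | h
  · subst h
    rw [pt_zero, pt_mid X e (0 + 1) (by omega) (by omega)]
    simp
  · rw [pt_mid X e k h hk]
    rcases Nat.lt_or_ge (k + 1) (X.len e) with h4 | h4
    · rw [pt_mid X e (k + 1) (by omega) h4]
      simp only [ne_eq, Sum.inr.injEq, Sigma.mk.injEq, heq_eq_eq, Fin.mk.injEq, true_and]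
      omega
    · have h5 : k + 1 = X.len e := by omega
      rw [h5, pt_len X e (by omega)]
      simp

lemma adj_pt (h2 : ∀ e, 2 ≤ X.len e) (e : E) (k : ℕ) (hk : k < X.len e) :
    X.G.Adj (X.pt e k) (X.pt e (k + 1)) := by
  rw [G, SimpleGraph.fromRel_adj]
  exact ⟨X.pt_ne_succ h2 e k hk, Or.inl ⟨e, k, hk, rfl, rfl⟩⟩

/-- **Balance.** A solution on the subdivision gives, for every edge `e` of the skeleton, numbers
`fw e` (pebbles arriving at the target end of the path of `e`) and `bw e` (pebbles arriving at the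
source end), at most one of them nonzero, satisfying the balance at every vertex of the skeleton. -/
def BalanceStmt : Prop :=
  ∀ (K E : Type) [Fintype K] [Fintype E] [DecidableEq K] [DecidableEq E] (X : Skel K E),
    (∀ e, 2 ≤ X.len e) → ∀ C D : K → ℕ, Solvable X.G (X.ext C) (X.ext D) →
    ∃ fw bw : E → ℕ, (∀ e, fw e = 0 ∨ bw e = 0) ∧ ∀ A : K,
      D A + ∑ e, (if X.src e = A then 2 ^ X.len e * fw e else 0)
          + ∑ e, (if X.tgt e = A then 2 ^ X.len e * bw e else 0)
        ≤ C A + ∑ e, (if X.src e = A then bw e else 0) + ∑ e, (if X.tgt e = A then fw e else 0)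

end Skel

end Pool.Agent.Helper18.Peb
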