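import Mathlib
import Pool.Agent.Helper18.Peb.Skel

set_option autoImplicit false

/-! The balance theorem on subdivisions. -/

namespace Pool.Agent.Helper18.Peb.Skel

open Finset

set_option linter.unusedSectionVars false

variable {K E : Type} [Fintype E] [DecidableEq K] [DecidableEq E] (X : Skel K E)

/-- the total of the numbers `f e k` at the start and `r e k` at the end of the segments at `x` -/
def flo (f r : E → ℕ → ℕ) (x : X.Vx) : ℕ :=
  ∑ e, ∑ k ∈ range (X.len e),
    ((if X.pt e k = x then f e k else 0) + (if X.pt e (k + 1) = x then r e k else 0))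

def bump (e : E) (k : ℕ) : E → ℕ → ℕ := fun e' k' => if e' = e then (if k' = k then 1 else 0) else 0

lemma flo_add (f r f' r' : E → ℕ → ℕ) (x : X.Vx) :
    X.flo (f + f') (r + r') x = X.flo f r x + X.flo f' r' x := by
  simp only [flo, ← Finset.sum_add_distrib]
  refine Finset.sum_congr rfl fun e _ => Finset.sum_congr rfl fun k _ => ?_
  simp only [Pi.add_apply]
  split_ifs <;> ring

lemma flo_bump_left (e : E) (k : ℕ) (hk : k < X.len e) (x : X.Vx) :
    X.flo (bump e k) 0 x = if X.pt e k = x then 1 else 0 := by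
  rw [flo, Finset.sum_eq_single e]
  · rw [Finset.sum_eq_single k]
    · simp [bump]
    · intro b _ hb
      simp [bump, hb]
    · intro h
      exact absurd (Finset.mem_range.mpr hk) h
  · intro b _ hb
    simp [bump, hb]
  · intro h
    exact absurd (Finset.mem_univ e) h

lemma flo_bump_right (e : E) (k : ℕ) (hk : k < X.len e) (x : X.Vx) :
    X.flo 0 (bump e k) x = if X.pt e (k + 1) = x then 1 else 0 := by
  rw [flo, Finset.sum_eq_single e]
  · rw [Finset.sum_eq_single k]
    · simp [bump]
    · intro b _ hb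
      simp [bump, hb]
    · intro h
      exact absurd (Finset.mem_range.mpr hk) h
  · intro b _ hb
    simp [bump, hb]
  · intro h
    exact absurd (Finset.mem_univ e) h

lemma exists_flow {C C' : X.Vx → ℕ} (h : Relation.ReflTransGen (Step X.G) C C') :
    ∃ f r : E → ℕ → ℕ, ∀ x, C' x + 2 * X.flo f r x = C x + X.flo r f x := by
  induction h with
  | refl =>
    refine ⟨0, 0, fun x => ?_⟩
    simp [flo]
  | @tail B B' _ hs ih =>
    obtain ⟨f, r, hfr⟩ := ih
    rw [step_iff] at hs
    obtain ⟨a, b, hab, heq⟩ := hs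
    rw [G, SimpleGraph.fromRel_adj] at hab
    obtain ⟨_, hab⟩ := hab
    have hx : ∀ x, B' x + (if a = x then 2 else 0) = B x + (if b = x then 1 else 0) := by
      intro x
      have := congrFun heq x
      simpa [Pi.single_apply, eq_comm] using this
    rcases hab with ⟨e, k, hk, rfl, rfl⟩ | ⟨e, k, hk, rfl, rfl⟩
    · refine ⟨f + bump e k, r + 0, fun x => ?_⟩
      rw [flo_add, flo_add, flo_bump_left X e k hk, flo_bump_right X e k hk]
      have h1 := hfr x
      have h2 := hx x
      split_ifs at h2 ⊢ <;> omega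
    · refine ⟨f + 0, r + bump e k, fun x => ?_⟩
      rw [flo_add, flo_add, flo_bump_left X e k hk, flo_bump_right X e k hk]
      have h1 := hfr x
      have h2 := hx x
      split_ifs at h2 ⊢ <;> omega

lemma flo_cancel (f r : E → ℕ → ℕ) (x : X.Vx) :
    2 * X.flo (fun e k => f e k - r e k) (fun e k => r e k - f e k) x + X.flo r f x
      ≤ 2 * X.flo f r x + X.flo (fun e k => r e k - f e k) (fun e k => f e k - r e k) x := by
  simp only [flo, Finset.mul_sum, ← Finset.sum_add_distrib]
  refine Finset.sum_le_sum fun e _ => Finset.sum_le_sum fun k _ => ?_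
  split_ifs <;> omega

lemma pt_eq_mid (e : E) (k : ℕ) (h1 : 1 ≤ k) (h2 : k < X.len e) (e' : E) (k' : ℕ)
    (hk' : k' ≤ X.len e') : X.pt e' k' = X.pt e k ↔ e' = e ∧ k' = k := by
  constructor
  · intro h
    rw [pt_mid X e k h1 h2] at h
    rcases Nat.eq_zero_or_pos k' with h3 | h3
    · subst h3
      rw [pt_zero] at h
      exact absurd h (by simp)
    · rcases Nat.lt_or_ge k' (X.len e') with h4 | h4
      · rw [pt_mid X e' k' h3 h4] at h
        simp only [Sum.inr.injEq, Sigma.mk.injEq] at h
        obtain ⟨h5, h6⟩ := h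
        subst h5
        simp only [heq_eq_eq, Fin.mk.injEq] at h6
        exact ⟨rfl, by omega⟩
      · have h5 : k' = X.len e' := le_antisymm hk' h4
        rw [h5, pt_len X e' (by omega)] at h
        exact absurd h (by simp)
  · rintro ⟨rfl, rfl⟩
    rfl

lemma flo_mid (f r : E → ℕ → ℕ) (e : E) (k : ℕ) (h1 : 1 ≤ k) (h2 : k < X.len e) :
    X.flo f r (X.pt e k) = f e k + r e (k - 1) := by
  rw [flo, Finset.sum_eq_single e]
  · rw [Finset.sum_add_distrib, Finset.sum_eq_single k, Finset.sum_eq_single (k - 1)]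
    · rw [if_pos rfl, if_pos]
      congr 1
      omega
    · intro b hb hbk
      rw [if_neg]
      intro h
      have := (X.pt_eq_mid e k h1 h2 e (b + 1) (by have := Finset.mem_range.mp hb; omega)).mp h
      omega
    · intro h
      exact absurd (Finset.mem_range.mpr (by omega)) h
    · intro b hb hbk
      rw [if_neg]
      intro h
      have := (X.pt_eq_mid e k h1 h2 e b (by have := Finset.mem_range.mp hb; omega)).mp h
      omega
    · intro h
      exact absurd (Finset.mem_range.mpr h2) h
  · intro e' _ he'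
    refine Finset.sum_eq_zero fun b hb => ?_
    have hb' := Finset.mem_range.mp hb
    have h3 : ¬ X.pt e' b = X.pt e k := fun h =>
      he' ((X.pt_eq_mid e k h1 h2 e' b (by omega)).mp h).1
    have h4 : ¬ X.pt e' (b + 1) = X.pt e k := fun h =>
      he' ((X.pt_eq_mid e k h1 h2 e' (b + 1) (by omega)).mp h).1
    rw [if_neg h3, if_neg h4, add_zero]
  · intro h
    exact absurd (Finset.mem_univ e) h

lemma pt_eq_inl (e : E) (k : ℕ) (hk : k < X.len e) (A : K) :
    X.pt e k = Sum.inl A ↔ k = 0 ∧ X.src e = A := by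
  rcases Nat.eq_zero_or_pos k with h | h
  · subst h
    rw [pt_zero]
    simp
  · rw [pt_mid X e k h hk]
    simp
    omega

lemma pt_succ_eq_inl (e : E) (k : ℕ) (hk : k < X.len e) (A : K) :
    X.pt e (k + 1) = Sum.inl A ↔ k = X.len e - 1 ∧ X.tgt e = A := by
  rcases Nat.lt_or_ge (k + 1) (X.len e) with h | h
  · rw [pt_mid X e (k + 1) (by omega) h]
    simp
    omega
  · have h1 : k + 1 = X.len e := by omega
    rw [h1, pt_len X e (by omega)]
    simp
    omega

lemma flo_inl (f r : E → ℕ → ℕ) (A : K) (h2 : ∀ e, 2 ≤ X.len e) :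
    X.flo f r (Sum.inl A) = ∑ e, ((if X.src e = A then f e 0 else 0)
      + (if X.tgt e = A then r e (X.len e - 1) else 0)) := by
  rw [flo]
  refine Finset.sum_congr rfl fun e _ => ?_
  have h3 := h2 e
  rw [Finset.sum_add_distrib]
  congr 1
  · rw [Finset.sum_eq_single 0]
    · rw [pt_zero]
      simp
    · intro b hb hb0
      rw [if_neg]
      rw [X.pt_eq_inl e b (Finset.mem_range.mp hb)]
      tauto
    · intro h
      exact absurd (Finset.mem_range.mpr (by omega)) h
  · rw [Finset.sum_eq_single (X.len e - 1)]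
    · by_cases h4 : X.tgt e = A
      · rw [if_pos h4, if_pos]
        rw [X.pt_succ_eq_inl e _ (by omega)]
        exact ⟨rfl, h4⟩
      · rw [if_neg h4, if_neg]
        rw [X.pt_succ_eq_inl e _ (by omega)]
        tauto
    · intro b hb hb0
      rw [if_neg]
      rw [X.pt_succ_eq_inl e b (Finset.mem_range.mp hb)]
      tauto
    · intro h
      exact absurd (Finset.mem_range.mpr (by omega)) h

/-- along an empty path the flow doubles towards its origin -/
lemma path_flow (n : ℕ) (f r : ℕ → ℕ) (hn : 1 ≤ n) (h0 : ∀ k, f k = 0 ∨ r k = 0)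
    (hb : ∀ k, 1 ≤ k → k < n → 2 * (f k + r (k - 1)) ≤ f (k - 1) + r k) :
    2 ^ (n - 1) * f (n - 1) ≤ f 0 ∧ 2 ^ (n - 1) * r 0 ≤ r (n - 1) ∧ (f (n - 1) = 0 ∨ r 0 = 0) := by
  have hA : ∀ k, k < n → 0 < f k → 2 ^ k * f k ≤ f 0 ∧ r 0 = 0 := by
    intro k
    induction k with
    | zero =>
      intro _ h
      refine ⟨by simp, ?_⟩
      rcases h0 0 with h1 | h1
      · omega
      · exact h1
    | succ k ih =>
      intro hk hf
      have h1 := hb (k + 1) (by omega) hk
      simp only [Nat.add_sub_cancel] at h1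
      have h2 : r (k + 1) = 0 := by
        rcases h0 (k + 1) with h2 | h2
        · omega
        · exact h2
      have h3 : 2 * f (k + 1) ≤ f k := by omega
      obtain ⟨h4, h5⟩ := ih (by omega) (by omega)
      refine ⟨?_, h5⟩
      calc 2 ^ (k + 1) * f (k + 1) = 2 ^ k * (2 * f (k + 1)) := by ring
        _ ≤ 2 ^ k * f k := Nat.mul_le_mul_left _ h3
        _ ≤ f 0 := h4
  have hB : ∀ j, j ≤ n - 1 → 0 < r 0 → 0 < r j ∧ 2 ^ j * r 0 ≤ r j := by
    intro j
    induction j with
    | zero =>
      intro _ h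
      exact ⟨h, by simp⟩
    | succ k ih =>
      intro hk hr
      obtain ⟨h4, h5⟩ := ih (by omega) hr
      have h1 := hb (k + 1) (by omega) (by omega)
      simp only [Nat.add_sub_cancel] at h1
      have h2 : f k = 0 := by
        rcases h0 k with h2 | h2
        · exact h2
        · omega
      have h3 : 2 * r k ≤ r (k + 1) := by omega
      refine ⟨by omega, ?_⟩
      calc 2 ^ (k + 1) * r 0 = 2 * (2 ^ k * r 0) := by ring
        _ ≤ 2 * r k := Nat.mul_le_mul_left _ h5
        _ ≤ r (k + 1) := h3
  refine ⟨?_, ?_, ?_⟩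
  · rcases Nat.eq_zero_or_pos (f (n - 1)) with h | h
    · rw [h]; simp
    · exact (hA (n - 1) (by omega) h).1
  · rcases Nat.eq_zero_or_pos (r 0) with h | h
    · rw [h]; simp
    · exact (hB (n - 1) le_rfl h).2
  · rcases Nat.eq_zero_or_pos (f (n - 1)) with h | h
    · exact Or.inl h
    · exact Or.inr (hA (n - 1) (by omega) h).2

end Pool.Agent.Helper18.Peb.Skel

namespace Pool.Agent.Helper18.Peb.Skel

open Finset

theorem balance : BalanceStmt := by
  intro K E _ _ _ _ X h2 C D hs
  obtain ⟨C', hreach, hC'⟩ := hs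
  obtain ⟨f, r, hfr⟩ := X.exists_flow hreach
  set f' : E → ℕ → ℕ := fun e k => f e k - r e k with hf'
  set r' : E → ℕ → ℕ := fun e k => r e k - f e k with hr'
  have hbal : ∀ x, X.ext D x + 2 * X.flo f' r' x ≤ X.ext C x + X.flo r' f' x := by
    intro x
    have h3 := X.flo_cancel f r x
    have h4 := hfr x
    have h5 := hC' x
    rw [← hf', ← hr'] at h3
    omega
  have hzero : ∀ e k, f' e k = 0 ∨ r' e k = 0 := by
    intro e k
    simp only [hf', hr']
    omega
  have hpath : ∀ e, 2 ^ (X.len e - 1) * f' e (X.len e - 1) ≤ f' e 0 ∧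
      2 ^ (X.len e - 1) * r' e 0 ≤ r' e (X.len e - 1) ∧
      (f' e (X.len e - 1) = 0 ∨ r' e 0 = 0) := by
    intro e
    have h3 := h2 e
    refine path_flow (X.len e) (f' e) (r' e) (by omega) (hzero e) ?_
    intro k hk1 hk2
    have h4 := hbal (X.pt e k)
    rw [X.flo_mid f' r' e k hk1 hk2, X.flo_mid r' f' e k hk1 hk2] at h4
    rw [X.pt_mid e k hk1 hk2] at h4
    simp only [ext, Sum.elim_inr] at h4
    omega
  refine ⟨fun e => f' e (X.len e - 1), fun e => r' e 0, fun e => (hpath e).2.2, ?_⟩
  intro A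
  have h4 := hbal (Sum.inl A)
  rw [X.flo_inl f' r' A h2, X.flo_inl r' f' A h2] at h4
  simp only [ext, Sum.elim_inl, Finset.sum_add_distrib, Finset.mul_sum, mul_add] at h4
  have h5 : ∑ e, (if X.src e = A then 2 ^ X.len e * f' e (X.len e - 1) else 0)
      ≤ ∑ e, 2 * (if X.src e = A then f' e 0 else 0) := by
    refine Finset.sum_le_sum fun e _ => ?_
    split_ifs
    · have h6 := (hpath e).1
      have h7 : 2 ^ X.len e = 2 * 2 ^ (X.len e - 1) := by
        have := h2 e
        rw [← pow_succ']
        congr 1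
        omega
      rw [h7, mul_assoc]
      omega
    · simp
  have h8 : ∑ e, (if X.tgt e = A then 2 ^ X.len e * r' e 0 else 0)
      ≤ ∑ e, 2 * (if X.tgt e = A then r' e (X.len e - 1) else 0) := by
    refine Finset.sum_le_sum fun e _ => ?_
    split_ifs
    · have h6 := (hpath e).2.1
      have h7 : 2 ^ X.len e = 2 * 2 ^ (X.len e - 1) := by
        have := h2 e
        rw [← pow_succ']
        congr 1
        omega
      rw [h7, mul_assoc]
      omega
    · simp
  beta_reduce
  omega

end Pool.Agent.Helper18.Peb.Skel
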