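import Mathlib
import Pool.Agent.Helper18.Peb.Skel

set_option autoImplicit false

/-!
The concrete graph: hubs `u`, `v`, row gates `g i`, column gates `c j`, and for every star
`σ = (i, j, k)` (row `i`, column `j`) a centre `z σ` and a tip `y σ`.
-/

namespace Pool.Agent.Helper18.Peb

/-- the stars: `(row, column, index in the cell)` -/
abbrev Star (p x : ℕ) : Type := Fin p × Fin p × Fin x

/-- the vertices of the skeleton -/
inductive KV (p x : ℕ) : Type
  | u : KV p x
  | v : KV p x
  | g : Fin p → KV p x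
  | c : Fin p → KV p x
  | z : Star p x → KV p x
  | y : Star p x → KV p x
  deriving DecidableEq

/-- the edges of the skeleton -/
inductive KE (p x : ℕ) : Type
  | uv : KE p x
  | gu : Fin p → KE p x
  | cv : Fin p → KE p x
  | tail : Star p x → KE p x
  | zg : Star p x → Fin p → KE p x
  | zc : Star p x → Fin p → KE p x
  deriving DecidableEq

def kvEquiv (p x : ℕ) :
    KV p x ≃ (Unit ⊕ Unit) ⊕ (Fin p ⊕ Fin p) ⊕ (Star p x ⊕ Star p x) where
  toFun
    | .u => .inl (.inl ())
    | .v => .inl (.inr ())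
    | .g i => .inr (.inl (.inl i))
    | .c i => .inr (.inl (.inr i))
    | .z σ => .inr (.inr (.inl σ))
    | .y σ => .inr (.inr (.inr σ))
  invFun
    | .inl (.inl ()) => .u
    | .inl (.inr ()) => .v
    | .inr (.inl (.inl i)) => .g i
    | .inr (.inl (.inr i)) => .c i
    | .inr (.inr (.inl σ)) => .z σ
    | .inr (.inr (.inr σ)) => .y σ
  left_inv a := by cases a <;> rfl
  right_inv a := by rcases a with (⟨⟩ | ⟨⟩) | (_ | _) | (_ | _) <;> rfl

def keEquiv (p x : ℕ) :
    KE p x ≃ Unit ⊕ (Fin p ⊕ Fin p) ⊕ Star p x ⊕ (Star p x × Fin p ⊕ Star p x × Fin p) where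
  toFun
    | .uv => .inl ()
    | .gu i => .inr (.inl (.inl i))
    | .cv i => .inr (.inl (.inr i))
    | .tail σ => .inr (.inr (.inl σ))
    | .zg σ i => .inr (.inr (.inr (.inl (σ, i))))
    | .zc σ i => .inr (.inr (.inr (.inr (σ, i))))
  invFun
    | .inl () => .uv
    | .inr (.inl (.inl i)) => .gu i
    | .inr (.inl (.inr i)) => .cv i
    | .inr (.inr (.inl σ)) => .tail σ
    | .inr (.inr (.inr (.inl (σ, i)))) => .zg σ i
    | .inr (.inr (.inr (.inr (σ, i)))) => .zc σ i
  left_inv a := by cases a <;> rfl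
  right_inv a := by rcases a with ⟨⟩ | (_ | _) | _ | (_ | _) <;> rfl

instance (p x : ℕ) : Fintype (KV p x) := Fintype.ofEquiv _ (kvEquiv p x).symm
instance (p x : ℕ) : Fintype (KE p x) := Fintype.ofEquiv _ (keEquiv p x).symm

lemma sum_KV {p x : ℕ} (F : KV p x → ℕ) :
    ∑ a, F a = F .u + F .v + ∑ i, F (.g i) + ∑ i, F (.c i) + ∑ σ, F (.z σ) + ∑ σ, F (.y σ) := by
  rw [← Equiv.sum_comp (kvEquiv p x).symm F]
  simp only [Fintype.sum_sum_type, kvEquiv, Equiv.coe_fn_symm_mk]
  simp
  ring

lemma sum_KE {p x : ℕ} (F : KE p x → ℕ) :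
    ∑ a, F a = F .uv + ∑ i, F (.gu i) + ∑ i, F (.cv i) + ∑ σ, F (.tail σ)
      + ∑ σ, ∑ i, F (.zg σ i) + ∑ σ, ∑ i, F (.zc σ i) := by
  rw [← Equiv.sum_comp (keEquiv p x).symm F]
  simp only [Fintype.sum_sum_type, keEquiv, Equiv.coe_fn_symm_mk]
  rw [Fintype.sum_prod_type (f := fun y : Star p x × Fin p => F (.zg y.1 y.2)),
    Fintype.sum_prod_type (f := fun y : Star p x × Fin p => F (.zc y.1 y.2))]
  simp
  ring

/-- the skeleton; `d` is the length of `u v`, `l` the length of gate-hub paths, `t` the length of the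
tails, and the legs of a star have length `s` (own gates) or `s + 1` (all other gates) -/
def skel (p x d s t l : ℕ) : Skel (KV p x) (KE p x) where
  src
    | .uv => .u
    | .gu i => .g i
    | .cv i => .c i
    | .tail σ => .y σ
    | .zg σ _ => .z σ
    | .zc σ _ => .z σ
  tgt
    | .uv => .v
    | .gu _ => .u
    | .cv _ => .v
    | .tail σ => .z σ
    | .zg _ i => .g i
    | .zc _ i => .c i
  len
    | .uv => d
    | .gu _ => l
    | .cv _ => l
    | .tail _ => t
    | .zg σ i => if σ.1 = i then s else s + 1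
    | .zc σ i => if σ.2.1 = i then s else s + 1

lemma skel_two_le {p x d s t l : ℕ} (hd : 2 ≤ d) (hs : 2 ≤ s) (ht : 2 ≤ t) (hl : 2 ≤ l)
    (e : KE p x) : 2 ≤ (skel p x d s t l).len e := by
  cases e <;> simp only [skel] <;> first | omega | (split_ifs <;> omega)

/-- the configuration on the skeleton with `m` pebbles on every tip -/
def tipConf (p x m : ℕ) : KV p x → ℕ
  | .y _ => m
  | _ => 0

/-- the target with one pebble on `u` and one on `v` -/
def uvConf (p x : ℕ) : KV p x → ℕ
  | .u => 1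
  | .v => 1
  | _ => 0

end Pool.Agent.Helper18.Peb
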