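import Mathlib
import Pool.Agent.Helper18.Peb.Conc

set_option autoImplicit false

/-! The regions: `some σ` for the vertices of the star `σ`, `none` for the core. -/

namespace Pool.Agent.Helper18.Peb

/-- the region of an edge of the skeleton -/
def regE (p x : ℕ) : KE p x → Option (Star p x)
  | .uv => none
  | .gu _ => none
  | .cv _ => none
  | .tail σ => some σ
  | .zg σ _ => some σ
  | .zc σ _ => some σ

/-- the region of a vertex of the skeleton -/
def regK (p x : ℕ) : KV p x → Option (Star p x)
  | .u => none
  | .v => none
  | .g _ => none
  | .c _ => none
  | .z σ => some σ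
  | .y σ => some σ

/-- the region of a vertex -/
def reg (p x d s t l : ℕ) : (skel p x d s t l).Vx → Option (Star p x)
  | .inl A => regK p x A
  | .inr e => regE p x e.1

end Pool.Agent.Helper18.Peb
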