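import Mathlib
import Pool.Agent.Helper18.Peb.Side
import Pool.Agent.Helper18.Peb.Reg
import Pool.Agent.Helper18.Peb.St.PB3
import Pool.Agent.Helper18.Peb.St.PB4
import Pool.Agent.Helper18.Peb.St.PB5
import Pool.Agent.Helper18.Peb.St.PB6
import Pool.Agent.Helper18.Peb.St.PB9b
import Pool.Agent.Helper18.Peb.St.PB9c

set_option autoImplicit false

/-! Assembly. -/

namespace Pool.Agent.Helper18.Peb

open Finset

/-- the concrete graph satisfies the interface of the upper bound -/
noncomputable def setup (x : ℕ) (hx : x = 2 ^ 94 + 2 ^ 82) :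
    Setup (XX x).G (fun σ : Star 1024 x => (Sum.inl (KV.z σ) : (XX x).Vx)) where
  R := {
    line := fun σ => σ.1
    gate := fun i => .inl (.g i)
    hub := .inl .u
    own := own_g
    any := fun σ i => (any_g σ i).1
    up := fun i => (hub_g i).1
    down := fun i => (hub_g i).2 }
  C := {
    line := fun σ => σ.2.1
    gate := fun i => .inl (.c i)
    hub := .inl .v
    own := own_c
    any := fun σ i => (any_c σ i).1
    up := fun i => (hub_c i).1
    down := fun i => (hub_c i).2 }
  reg := reg 1024 x 10 34 60 104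
  hR := fun i => by
    have h := card_row 1024 x i
    rw [h, hx]
    norm_num
  hC := fun i => by
    have h := card_col 1024 x i
    rw [h, hx]
    norm_num
  hstar := fun a σ h => (star_center a σ h).1
  hgate := fun a σ i h => ⟨(any_g σ i).2.trans (star_center a σ h).2,
    (any_c σ i).2.trans (star_center a σ h).2⟩
  hnstar := card_star x
  hncore := card_core x
  hcore := core_core (by rw [hx]; positivity)
  hcls := core_class

/-- every configuration with at least `N` pebbles solves every target `2 I_w` -/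
theorem claim2 (x : ℕ) (hx : x = 2 ^ 94 + 2 ^ 82) (P : (XX x).Vx → ℕ)
    (hP : (2 ^ 114 + 2 ^ 102) * (2 ^ 95 - 1) ≤ size P) (w : (XX x).Vx) :
    Solvable (XX x).G P (Pi.single w 2) := by
  cases h : (setup x hx).reg w with
  | none => exact case_core (setup x hx) P hP w h
  | some σ => exact case_star (setup x hx) P hP w σ h

lemma exists_le_size_eq {V : Type} [Fintype V] [DecidableEq V] (n : ℕ) :
    ∀ C : V → ℕ, n ≤ size C → ∃ B : V → ℕ, B ≤ C ∧ size B = n := by
  induction n with
  | zero => exact fun C _ => ⟨0, fun _ => Nat.zero_le _, by simp [size]⟩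
  | succ n ih =>
    intro C hC
    obtain ⟨B, hB, hBn⟩ := ih C (by omega)
    have h1 : ∃ a, B a < C a := by
      by_contra hc
      push Not at hc
      have : size C ≤ size B := size_mono hc
      omega
    obtain ⟨a, ha⟩ := h1
    refine ⟨B + Pi.single a 1, ?_, ?_⟩
    · intro b
      by_cases hb : b = a
      · subst hb; simp; omega
      · simpa [hb] using hB b
    · rw [size_add, size_single, hBn]

/-- the set of admissible `t` is nonempty for targets of a fixed size -/
lemma exists_mem_size {V : Type} [Fintype V] {G : SimpleGraph V} (hG : G.Connected) (k : ℕ) :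
    ∃ t, ∀ C : V → ℕ, size C = t → ∀ D ∈ sizeTargets V k, Solvable G C D := by
  classical
  haveI : Nonempty V := hG.nonempty
  have hd : ∀ u v, G.dist u v ≤ G.diam := fun u v =>
    SimpleGraph.dist_le_diam (SimpleGraph.connected_iff_ediam_ne_top.mp hG)
  set N := 2 ^ G.diam with hN
  have hNpos : 0 < N := by positivity
  refine ⟨N * k + Fintype.card V * (N - 1), ?_⟩
  intro C hC D hD
  refine solvable_bulk hG hd k C D hD ?_
  have h1 := size_le_units N hNpos C
  rw [hC] at h1
  have h2 : N * k ≤ N * units N C := by omega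
  exact Nat.le_of_mul_le_mul_left h2 hNpos

/-- **Disproof of the target conjecture.** -/
theorem main : ∃ (V : Type) (_ : Fintype V) (G : SimpleGraph V), G.Connected ∧
    ∃ a b : ℕ, a < b ∧
      IsLeast {t | ∀ C : V → ℕ, size C = t → ∀ D ∈ foldTargets V 2, Solvable G C D} a ∧
      IsLeast {t | ∀ C : V → ℕ, size C = t → ∀ D ∈ sizeTargets V 2, Solvable G C D} b := by
  classical
  obtain ⟨x, hx⟩ : ∃ x : ℕ, x = 2 ^ 94 + 2 ^ 82 := ⟨_, rfl⟩
  have hconn : (XX x).G.Connected := connected_skel (by norm_num) (by rw [hx]; positivity)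
    (by norm_num) (by norm_num) (by norm_num) (by norm_num)
  refine ⟨(XX x).Vx, inferInstance, (XX x).G, hconn, ?_⟩
  set SK := {t | ∀ C : (XX x).Vx → ℕ, size C = t → ∀ D ∈ foldTargets (XX x).Vx 2,
    Solvable (XX x).G C D} with hSK
  set SC := {t | ∀ C : (XX x).Vx → ℕ, size C = t → ∀ D ∈ sizeTargets (XX x).Vx 2,
    Solvable (XX x).G C D} with hSC
  set N := (2 ^ 114 + 2 ^ 102) * (2 ^ 95 - 1) with hN
  have hNK : N ∈ SK := by
    intro C hC D hD
    obtain ⟨w, hw, hw'⟩ := hD
    have h1 : D = Pi.single w 2 := by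
      funext b
      by_cases hb : b = w
      · subst hb; simpa using hw
      · simpa [hb] using hw' b hb
    rw [h1]
    exact claim2 x hx C (by rw [hC]) w
  have hneC : SC.Nonempty := exists_mem_size hconn 2
  have hmemC : sInf SC ∈ SC := Nat.sInf_mem hneC
  have hmemK : sInf SK ∈ SK := Nat.sInf_mem ⟨N, hNK⟩
  have hlt : N < sInf SC := by
    by_contra hc
    push Not at hc
    have h1 : sInf SC ≤ size ((XX x).ext (tipConf 1024 x (2 ^ 95 - 1))) := by
      rw [size_tip x hx]
      exact hc
    obtain ⟨B, hB, hBn⟩ := exists_le_size_eq _ _ h1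
    have h2 := hmemC B hBn ((XX x).ext (uvConf 1024 x)) (size_uv x)
    exact claim1 x hx (h2.mono hB le_rfl)
  refine ⟨sInf SK, sInf SC, lt_of_le_of_lt (Nat.sInf_le hNK) hlt, ⟨hmemK, ?_⟩, ⟨hmemC, ?_⟩⟩
  · exact fun t ht => Nat.sInf_le ht
  · exact fun t ht => Nat.sInf_le ht

end Pool.Agent.Helper18.Peb
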